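import Pool.Agent.Y929.MB.Maker
import Pool.Agent.Y929.MB.Prevent

/-!
The order of magnitude of the biased achievement numbers of the parallelogram lattices; the conjectured
formula fails in a large region of biases, by arbitrarily large factors.

Maker, with bias `m`, plays with blocks of the size `m` (the blocks are those of the file
`Pool/Agent/LatKK/Lattice.lean`): in each move he takes a whole untouched block, and each of Breaker's
`b` points spoils at most one block.  This gives parallelogram lattices with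
`q ^ 2 ≥ (2 m / log (b + 1) - o(1)) log N`, while `g_X(N) ^ 2 = 4 (rr m b) log N`.  On the other hand, by
the Erdos-Selfridge-Beck criterion (file `Pool/Agent/Y418/BG/Breaker.lean`) Breaker prevents the lattices
with `q ^ 2 ≥ (6 m / log (b + 1) + o(1)) log N`, as there are at most `N ^ 6` of them.
-/

set_option autoImplicit false

namespace Pool.Agent.Results.MP_58ead2_co.AchievementBiased

open Finset Pool.Agent.W315.Lat

/-- `1 / log c + 2 / log c₀` if `m > b` and `1 / log c` if `m ≤ b`, where `c = (m + b) / m` and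
`c₀ = m / (m - b)`; this is the number with `g_X(N) = 2 √(rr m b * log N)` for the parallelograms. -/
noncomputable def rr (m b : ℕ) : ℝ :=
  if b < m then 1 / Real.log (((m : ℝ) + b) / m) + 2 / Real.log ((m : ℝ) / ((m : ℝ) - b))
  else 1 / Real.log (((m : ℝ) + b) / m)

lemma gX_eq (m b N : ℕ) : gX m b Cls.parallelogram N = 2 * Real.sqrt (rr m b * Real.log N) := by
  simp only [gX]
  congr 2
  unfold Lam rr Real.logb
  split_ifs <;> ring

lemma ratio_pos (m b : ℕ) (hm : 1 ≤ m) (hb : 1 ≤ b) : 0 < Real.log (((m : ℝ) + b) / m) := by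
  have hmr : (1 : ℝ) ≤ m := by exact_mod_cast hm
  have hbr : (1 : ℝ) ≤ b := by exact_mod_cast hb
  refine Real.log_pos ?_
  rw [lt_div_iff₀ (by linarith)]
  linarith

lemma ratio2_pos (m b : ℕ) (hm : 1 ≤ m) (hb : 1 ≤ b) (h : b < m) :
    0 < Real.log ((m : ℝ) / ((m : ℝ) - b)) := by
  have hmr : (1 : ℝ) ≤ m := by exact_mod_cast hm
  have hbr : (1 : ℝ) ≤ b := by exact_mod_cast hb
  have hbm : (b : ℝ) < m := by exact_mod_cast h
  refine Real.log_pos ?_
  rw [lt_div_iff₀ (by linarith)]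
  linarith

lemma rr_pos (m b : ℕ) (hm : 1 ≤ m) (hb : 1 ≤ b) : 0 < rr m b := by
  have h1 := ratio_pos m b hm hb
  unfold rr
  split_ifs with h
  · have h2 := ratio2_pos m b hm hb h
    positivity
  · positivity

/-- `g_X` for the parallelograms is `dd m b √(log₂ N)` -/
noncomputable def dd (m b : ℕ) : ℝ := 2 * Real.sqrt (rr m b * Real.log 2)

lemma gX_dd (m b N : ℕ) (hm : 1 ≤ m) (hb : 1 ≤ b) :
    gX m b Cls.parallelogram N = dd m b * Real.sqrt (Real.logb 2 N) := by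
  have hl2 : 0 < Real.log 2 := Real.log_pos (by norm_num)
  have hr := rr_pos m b hm hb
  rw [gX_eq]
  unfold dd
  rw [mul_assoc, ← Real.sqrt_mul (by positivity)]
  congr 2
  unfold Real.logb
  field_simp

lemma dd_pos (m b : ℕ) (hm : 1 ≤ m) (hb : 1 ≤ b) : 0 < dd m b := by
  have hl2 : 0 < Real.log 2 := Real.log_pos (by norm_num)
  have hr := rr_pos m b hm hb
  exact mul_pos (by norm_num) (Real.sqrt_pos.2 (by positivity))

lemma dd_sq (m b : ℕ) (hm : 1 ≤ m) (hb : 1 ≤ b) : dd m b ^ 2 = 4 * rr m b * Real.log 2 := by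
  have hl2 : 0 < Real.log 2 := Real.log_pos (by norm_num)
  have hr := rr_pos m b hm hb
  unfold dd
  rw [mul_pow, Real.sq_sqrt (by positivity)]
  ring

/-- Maker wins for some `q ≥ K g_X(N)` for all large `N` -/
def Wins (m b : ℕ) (K : ℝ) : Prop :=
  ∃ N₀ : ℕ, ∀ N : ℕ, N₀ ≤ N → ∃ q : ℕ, K * gX m b Cls.parallelogram N ≤ q ∧
    MakerWins m b N Cls.parallelogram q

lemma wins_of (m b : ℕ) (hm : 1 ≤ m) (hb : 1 ≤ b) (K : ℝ) (hK : 0 < K)
    (h : 2 * K ^ 2 * rr m b * Real.log ((b : ℝ) + 1) < m) : Wins m b K := by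
  have hd0 := dd_pos m b hm hb
  have hl2 : 0 < Real.log 2 := Real.log_pos (by norm_num)
  have h1 : (K * dd m b) ^ 2 * Real.logb 2 ((b : ℝ) + 1) < 2 * m := by
    rw [mul_pow, dd_sq m b hm hb]
    have e : K ^ 2 * (4 * rr m b * Real.log 2) * Real.logb 2 ((b : ℝ) + 1) =
        2 * (2 * K ^ 2 * rr m b * Real.log ((b : ℝ) + 1)) := by
      unfold Real.logb
      field_simp
      ring
    rw [e]
    linarith
  obtain ⟨N₀, hN₀⟩ := Pool.Agent.Y929.MB.maker_lower m b (K * dd m b) hm hb (by positivity) h1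
  refine ⟨N₀, fun N hN => ?_⟩
  obtain ⟨q, h2, h3⟩ := hN₀ N hN
  refine ⟨q, ?_, h3⟩
  rw [gX_dd m b N hm hb, ← mul_assoc]
  exact h2

lemma exists_gt {x y : ℝ} (h : 2 * x < y) : ∃ K : ℝ, 1 < K ∧ 2 * K ^ 2 * x < y := by
  have h1 : Continuous fun K : ℝ => 2 * K ^ 2 * x := by fun_prop
  have h2 : ∀ᶠ K : ℝ in nhds 1, 2 * K ^ 2 * x < y := by
    refine h1.continuousAt.eventually_lt_const ?_
    show 2 * (1 : ℝ) ^ 2 * x < y
    rw [one_pow, mul_one]
    exact h
  have h3 : ∀ᶠ K : ℝ in nhdsWithin 1 (Set.Ioi 1), 2 * K ^ 2 * x < y :=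
    h2.filter_mono nhdsWithin_le_nhds
  obtain ⟨K, hK, hK1⟩ := (h3.and self_mem_nhdsWithin).exists
  exact ⟨K, hK1, hK⟩

lemma fails (m b : ℕ) (hm : 1 ≤ m) (hb : 1 ≤ b)
    (h : 2 * rr m b * Real.log ((b : ℝ) + 1) < m) :
    (∃ K : ℝ, 1 < K ∧ Wins m b K) ∧
      ¬ Formula (fun N q => MakerWins m b N Cls.parallelogram q)
        (gX m b Cls.parallelogram) := by
  obtain ⟨K, hK1, hK⟩ := exists_gt (x := rr m b * Real.log ((b : ℝ) + 1)) (y := m) (by linarith)
  have hW : Wins m b K := wins_of m b hm hb K (by linarith) (by linarith)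
  refine ⟨⟨K, hK1, hW⟩, ?_⟩
  have hd0 := dd_pos m b hm hb
  have hcd : dd m b < K * dd m b := by nlinarith
  obtain ⟨N₀, hN₀⟩ := hW
  refine not_formula _ _ (K * dd m b) (dd m b) hcd (by positivity)
    (fun N => gX_dd m b N hm hb) ⟨N₀, fun N hN => ?_⟩
  obtain ⟨q, h1, h2⟩ := hN₀ N hN
  rw [gX_dd m b N hm hb, ← mul_assoc] at h1
  exact ⟨q, h1, h2⟩

/-- the criterion holds for `6 ≤ m ≤ b` -/
lemma crit1 (m b : ℕ) (hm : 6 ≤ m) (hmb : m ≤ b) :
    2 * rr m b * Real.log ((b : ℝ) + 1) < m := by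
  have hmr : (6 : ℝ) ≤ m := by exact_mod_cast hm
  have hbm : (m : ℝ) ≤ b := by exact_mod_cast hmb
  have hbr : (6 : ℝ) ≤ b := hmr.trans hbm
  have h0 := ratio_pos m b (by omega) (by omega)
  have e1 : ((m : ℝ) + b) / m = 1 + (b : ℝ) / m := by
    have : (m : ℝ) ≠ 0 := by linarith
    field_simp
  have hs : 0 ≤ (b : ℝ) / m := by positivity
  have h1 : 1 + (m : ℝ) / 6 * ((b : ℝ) / m) ≤ (1 + (b : ℝ) / m) ^ ((m : ℝ) / 6) :=
    one_add_mul_self_le_rpow_one_add (by linarith) (by linarith)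
  have e2 : 1 + (m : ℝ) / 6 * ((b : ℝ) / m) = 1 + (b : ℝ) / 6 := by
    have : (m : ℝ) ≠ 0 := by linarith
    field_simp
  rw [e2] at h1
  have h2 : Real.log (1 + (b : ℝ) / 6) ≤ (m : ℝ) / 6 * Real.log (1 + (b : ℝ) / m) := by
    have h3 := Real.log_le_log (by positivity) h1
    rwa [Real.log_rpow (by positivity)] at h3
  have h4 : Real.log ((b : ℝ) + 1) < 3 * Real.log (1 + (b : ℝ) / 6) := by
    have h5 : (b : ℝ) + 1 < (1 + (b : ℝ) / 6) ^ 3 := by
      have h6 : 0 < (b : ℝ) := by linarith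
      nlinarith [mul_nonneg h6.le (sub_nonneg.2 hbr), mul_pos h6 (mul_pos h6 h6)]
    have h7 := Real.log_lt_log (by positivity) h5
    rw [Real.log_pow] at h7
    push_cast at h7
    linarith
  rw [e1] at h0
  unfold rr
  rw [if_neg (by omega), e1]
  rw [show 2 * (1 / Real.log (1 + (b : ℝ) / m)) * Real.log ((b : ℝ) + 1) =
    2 * Real.log ((b : ℝ) + 1) / Real.log (1 + (b : ℝ) / m) by ring, div_lt_iff₀ h0]
  linarith

/-- the criterion holds for `50 ≤ m ≤ 2 b` -/
lemma crit2 (m b : ℕ) (hm : 50 ≤ m) (hmb : m ≤ 2 * b) :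
    2 * rr m b * Real.log ((b : ℝ) + 1) < m := by
  rcases Nat.lt_or_ge b m with hlt | hge
  · have hmr : (50 : ℝ) ≤ m := by exact_mod_cast hm
    have hb2 : (m : ℝ) ≤ 2 * b := by exact_mod_cast hmb
    have hbm : (b : ℝ) + 1 ≤ m := by exact_mod_cast hlt
    have hl2 := Real.log_two_gt_d9
    have hl2' := Real.log_two_lt_d9
    have h1 : (0.405 : ℝ) ≤ Real.log (((m : ℝ) + b) / m) := by
      have h2 : (3 / 2 : ℝ) ≤ ((m : ℝ) + b) / m := by
        rw [le_div_iff₀ (by linarith)]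
        linarith
      have h3 := Real.log_le_log (by norm_num) h2
      have h4 : (0.405 : ℝ) ≤ Real.log (3 / 2) := by
        rw [Real.le_log_iff_exp_le (by norm_num)]
        have h5 := Real.exp_bound' (x := 0.405) (n := 5) (by norm_num) (by norm_num) (by norm_num)
        refine h5.trans ?_
        norm_num [Finset.sum_range_succ, Nat.factorial]
      linarith
    have h6 : (0.693 : ℝ) ≤ Real.log ((m : ℝ) / ((m : ℝ) - b)) := by
      have h7 : (2 : ℝ) ≤ (m : ℝ) / ((m : ℝ) - b) := by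
        rw [le_div_iff₀ (by linarith)]
        linarith
      have h8 := Real.log_le_log (by norm_num) h7
      linarith
    have h9 : rr m b ≤ 5.357 := by
      unfold rr
      rw [if_pos hlt]
      have h10 : 1 / Real.log (((m : ℝ) + b) / m) ≤ 1 / 0.405 :=
        one_div_le_one_div_of_le (by norm_num) h1
      have h11 : 2 / Real.log ((m : ℝ) / ((m : ℝ) - b)) ≤ 2 / 0.693 :=
        div_le_div_of_nonneg_left (by norm_num) (by norm_num) h6
      norm_num at h10 h11 ⊢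
      linarith
    have h12 : Real.log ((b : ℝ) + 1) ≤ (m : ℝ) / 64 + 3.16 := by
      have h13 : Real.log ((b : ℝ) + 1) ≤ Real.log m := Real.log_le_log (by linarith) hbm
      have h14 := Real.log_le_sub_one_of_pos (show (0 : ℝ) < m / 64 by linarith)
      rw [Real.log_div (by linarith) (by norm_num)] at h14
      have h15 : Real.log (64 : ℝ) = 6 * Real.log 2 := by
        rw [show (64 : ℝ) = 2 ^ 6 by norm_num, Real.log_pow]
        norm_num
      linarith
    have h16 : 0 ≤ Real.log ((b : ℝ) + 1) := Real.log_nonneg (by linarith)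
    have h17 := rr_pos m b (by omega) (by omega)
    calc 2 * rr m b * Real.log ((b : ℝ) + 1) ≤ 2 * 5.357 * ((m : ℝ) / 64 + 3.16) :=
          mul_le_mul (by linarith) h12 h16 (by norm_num)
      _ < m := by linarith
  · exact crit1 m b (by omega) hge

lemma maker_lower_log (m b : ℕ) (hm : 1 ≤ m) (hb : 1 ≤ b) (c : ℝ) (hc : 0 < c)
    (h : c ^ 2 * Real.log ((b : ℝ) + 1) < 2 * m) :
    ∃ N₀ : ℕ, ∀ N : ℕ, N₀ ≤ N → ∃ q : ℕ, c * Real.sqrt (Real.log N) ≤ q ∧
      MakerWins m b N Cls.parallelogram q := by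
  have hl2 : 0 < Real.log 2 := Real.log_pos (by norm_num)
  have h1 : (c * Real.sqrt (Real.log 2)) ^ 2 * Real.logb 2 ((b : ℝ) + 1) < 2 * m := by
    rw [mul_pow, Real.sq_sqrt hl2.le]
    unfold Real.logb
    have e : c ^ 2 * Real.log 2 * (Real.log ((b : ℝ) + 1) / Real.log 2) =
        c ^ 2 * Real.log ((b : ℝ) + 1) := by
      field_simp
    rw [e]
    exact h
  obtain ⟨N₀, hN₀⟩ := Pool.Agent.Y929.MB.maker_lower m b (c * Real.sqrt (Real.log 2)) hm hb
    (mul_pos hc (Real.sqrt_pos.2 hl2)) h1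
  refine ⟨N₀, fun N hN => ?_⟩
  obtain ⟨q, h2, h3⟩ := hN₀ N hN
  refine ⟨q, ?_, h3⟩
  have e : Real.log 2 * Real.logb 2 N = Real.log N := by
    unfold Real.logb
    field_simp
  rw [mul_assoc, ← Real.sqrt_mul hl2.le, e] at h2
  exact h2

/-- (1) The order of magnitude, for all biases `m`, `b`: if `c ^ 2 log (b + 1) < 2 m`, then for all large
`N` Maker wins the `(m:b)` achievement game for parallelogram lattices with some `q ≥ c √(log N)`; if
`c ^ 2 log (b + 1) > 6 m`, then for all large `N`, for every class of lattices and all `q ≥ c √(log N)`,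
Breaker has a strategy which prevents the `q × q` lattices, and Maker does not win.
(2) For all biases `m`, `b` and all `K > 0` with `2 K ^ 2 (rr m b) log (b + 1) < m`: for all large `N`
Maker wins the `(m:b)` achievement game for parallelogram lattices with some `q ≥ K g_X(N)`.  (So the
ratio is not bounded: for `m = b` one may take any `K < √(m log 2 / (2 log (m + 1)))`.)
(3) For all `6 ≤ m ≤ b`, for all `50 ≤ m ≤ 2 b`, and whenever `2 (rr m b) log (b + 1) < m`, Maker wins for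
all large `N` with some `q ≥ K g_X(N)`, for some `K > 1`, and the formula of Q1 fails for the bias `(m:b)`.
(4) In particular the statement of Q1 is false. -/
theorem result :
    (∀ m b : ℕ, 1 ≤ m → 1 ≤ b → ∀ c : ℝ, 0 < c →
      (c ^ 2 * Real.log ((b : ℝ) + 1) < 2 * m →
        ∃ N₀ : ℕ, ∀ N : ℕ, N₀ ≤ N → ∃ q : ℕ, c * Real.sqrt (Real.log N) ≤ q ∧
          MakerWins m b N Cls.parallelogram q) ∧
      (6 * (m : ℝ) < c ^ 2 * Real.log ((b : ℝ) + 1) →
        ∃ N₀ : ℕ, ∀ N : ℕ, N₀ ≤ N → ∀ (X : Cls) (q : ℕ), c * Real.sqrt (Real.log N) ≤ q →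
          Pool.Agent.Y929.MB.BreakerPrevents m b N X q ∧ ¬ MakerWins m b N X q)) ∧
    (∀ m b : ℕ, 1 ≤ m → 1 ≤ b → ∀ K : ℝ, 0 < K →
      2 * K ^ 2 * rr m b * Real.log ((b : ℝ) + 1) < m →
      ∃ N₀ : ℕ, ∀ N : ℕ, N₀ ≤ N → ∃ q : ℕ, K * gX m b Cls.parallelogram N ≤ q ∧
        MakerWins m b N Cls.parallelogram q) ∧
    (∀ m b : ℕ, (6 ≤ m ∧ m ≤ b) ∨ (50 ≤ m ∧ m ≤ 2 * b) ∨
        (1 ≤ m ∧ 1 ≤ b ∧ 2 * rr m b * Real.log ((b : ℝ) + 1) < m) →
      (∃ K : ℝ, 1 < K ∧ ∃ N₀ : ℕ, ∀ N : ℕ, N₀ ≤ N → ∃ q : ℕ,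
        K * gX m b Cls.parallelogram N ≤ q ∧ MakerWins m b N Cls.parallelogram q) ∧
      ¬ Formula (fun N q => MakerWins m b N Cls.parallelogram q)
        (gX m b Cls.parallelogram)) ∧
    ¬ (∀ (m b : ℕ) (X : Cls), 1 ≤ m → 1 ≤ b →
      Formula (fun N q => MakerWins m b N X q) (gX m b X)) := by
  have key : ∀ m b : ℕ, (6 ≤ m ∧ m ≤ b) ∨ (50 ≤ m ∧ m ≤ 2 * b) ∨
        (1 ≤ m ∧ 1 ≤ b ∧ 2 * rr m b * Real.log ((b : ℝ) + 1) < m) →
      (∃ K : ℝ, 1 < K ∧ Wins m b K) ∧
      ¬ Formula (fun N q => MakerWins m b N Cls.parallelogram q)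
        (gX m b Cls.parallelogram) := by
    intro m b h
    rcases h with ⟨hm, hmb⟩ | ⟨hm, hmb⟩ | ⟨hm, hb, h⟩
    · exact fails m b (by omega) (by omega) (crit1 m b hm hmb)
    · exact fails m b (by omega) (by omega) (crit2 m b hm hmb)
    · exact fails m b hm hb h
  have h0 := key 6 6 (Or.inl ⟨le_rfl, le_rfl⟩)
  refine ⟨fun m b hm hb c hc => ⟨maker_lower_log m b hm hb c hc, fun h => ?_⟩,
    fun m b hm hb K hK h => wins_of m b hm hb K hK h, key,
    fun hcon => h0.2 (hcon 6 6 Cls.parallelogram (by norm_num) (by norm_num))⟩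
  obtain ⟨N₀, hN₀⟩ := Pool.Agent.Y929.MB.breaker_upper m b c hm hb hc h
  exact ⟨N₀, fun N hN X q hq =>
    ⟨hN₀ N hN X q hq, Pool.Agent.Y929.MB.not_makerWins (hN₀ N hN X q hq)⟩⟩

end Pool.Agent.Results.MP_58ead2_co.AchievementBiased
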