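import Pool.Agent.W315.LatDefs
import Pool.Agent.W315.ForcerLat
import Pool.Agent.Y929.MB.Avoid

/-!
The formula for the biased lattice avoidance numbers fails in a large region of biases, by arbitrarily
large factors.

Forcer's strategy of the file `Pool/Agent/W315/ForcerLat.lean` works with blocks of the size `L ≤ a`; the
number which governs it is `B = ∏ (1 + θ / j)`, `j ≤ L`, with `θ = (f + L - 1) / (a - L + 1)`.  For the
factor tending to infinity take `L` about half of `m = min a f`: then `θ ≤ 3 f / a`, hence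
`log B ≤ 3 (f / a) (1 + log m)`, while `log (1 + f / a)` is at least `(f / a) / (1 + f / a)`.  For the
explicit region `39 ≤ a`, `39 ≤ f ≤ 4 a` take `L = 14`: here `B < (1 + f / a) ^ 7`.

On the other hand, by the criterion of Hefetz, Krivelevich and Szabo (file `Pool/Agent/Y929/MB/Avoid.lean`)
Avoider avoids the lattices with `q ^ 2 ≥ (6 / log (1 + 1 / a) + o(1)) log N`, as there are at most
`N ^ 6` of them.
-/

set_option autoImplicit false

namespace Pool.Agent.Results.MP_58ead2_co.AvoidanceUnboundedFactor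

open Finset Pool.Agent.W315.Lat Pool.Agent.W315.ForcerLat

/-- the bound for the product -/
lemma log_BB_le (a f L : ℕ) (hf : 1 ≤ f) (hL : 1 ≤ L) (hLa : L ≤ a) :
    Real.log (BB a f L) ≤ ((f : ℝ) + L - 1) / ((a : ℝ) - L + 1) * (1 + Real.log L) := by
  have hLr : (1 : ℝ) ≤ L := by exact_mod_cast hL
  have hLar : (L : ℝ) ≤ a := by exact_mod_cast hLa
  have hfr : (1 : ℝ) ≤ f := by exact_mod_cast hf
  have hθ : 0 ≤ ((f : ℝ) + L - 1) / ((a : ℝ) - L + 1) := div_nonneg (by linarith) (by linarith)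
  unfold BB
  generalize ((f : ℝ) + L - 1) / ((a : ℝ) - L + 1) = θ at hθ ⊢
  have hpos : ∀ j ∈ range L, (1 + θ / ((j : ℝ) + 1)) ≠ 0 := fun j _ => by positivity
  rw [Real.log_prod hpos]
  have h1 : ∑ j ∈ range L, Real.log (1 + θ / ((j : ℝ) + 1)) ≤ ∑ j ∈ range L, θ * ((j : ℝ) + 1)⁻¹ := by
    refine Finset.sum_le_sum fun j _ => ?_
    have h2 : 0 < 1 + θ / ((j : ℝ) + 1) := by positivity
    have h3 := Real.log_le_sub_one_of_pos h2
    rw [← div_eq_mul_inv]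
    linarith
  refine h1.trans ?_
  rw [← Finset.mul_sum]
  refine mul_le_mul_of_nonneg_left ?_ hθ
  have h4 := harmonic_le_one_add_log L
  unfold harmonic at h4
  push_cast at h4
  exact h4

/-- `h_X` for the parallelograms is `dd a f √(log₂ N)` -/
noncomputable def dd (a f : ℕ) : ℝ := 2 / Real.sqrt (Real.logb 2 (((a : ℝ) + f) / a))

lemma hX_eq (a f N : ℕ) : hX a f Cls.parallelogram N = dd a f * Real.sqrt (Real.logb 2 N) := by
  have h1 : Real.logb (((a : ℝ) + f) / a) N = Real.logb 2 N / Real.logb 2 (((a : ℝ) + f) / a) := by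
    have hl2 : Real.log 2 ≠ 0 := (Real.log_pos (by norm_num)).ne'
    unfold Real.logb
    rw [div_div_div_cancel_right₀ hl2]
  have h2 : 0 ≤ Real.logb 2 N := by
    rcases Nat.eq_zero_or_pos N with h | h
    · rw [h]
      simp
    · exact Real.logb_nonneg (by norm_num) (by exact_mod_cast h)
  simp only [hX]
  unfold dd
  rw [h1, Real.sqrt_div h2]
  ring

lemma logb_ratio_pos (a f : ℕ) (ha : 1 ≤ a) (hf : 1 ≤ f) :
    0 < Real.logb 2 (((a : ℝ) + f) / a) := by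
  have har : (1 : ℝ) ≤ a := by exact_mod_cast ha
  have hfr : (1 : ℝ) ≤ f := by exact_mod_cast hf
  refine Real.logb_pos (by norm_num) ?_
  rw [lt_div_iff₀ (by linarith)]
  linarith

lemma dd_pos (a f : ℕ) (ha : 1 ≤ a) (hf : 1 ≤ f) : 0 < dd a f :=
  div_pos (by norm_num) (Real.sqrt_pos.2 (logb_ratio_pos a f ha hf))

lemma dd_sq (a f : ℕ) (ha : 1 ≤ a) (hf : 1 ≤ f) :
    dd a f ^ 2 = 4 / Real.logb 2 (((a : ℝ) + f) / a) := by
  unfold dd
  rw [div_pow, Real.sq_sqrt (logb_ratio_pos a f ha hf).le]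
  norm_num

/-- Forcer wins for some `q ≥ K h_X(N)` for all large `N` -/
def Wins (a f : ℕ) (K : ℝ) : Prop :=
  ∃ N₀ : ℕ, ∀ N : ℕ, N₀ ≤ N → ∃ q : ℕ, K * hX a f Cls.parallelogram N ≤ q ∧
    ForcerWinsSecond a f N Cls.parallelogram q ∧ ForcerWinsFirst a f N Cls.parallelogram q

lemma wins_of (a f L : ℕ) (hf : 1 ≤ f) (hL : 1 ≤ L) (hLa : L ≤ a) (K : ℝ) (hK : 0 < K)
    (h : (K * dd a f) ^ 2 * Real.logb 2 (BB a f L) < 2 * L) : Wins a f K := by
  have hd0 := dd_pos a f (hL.trans hLa) hf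
  obtain ⟨N₀, hN₀⟩ := forcer_lower a f L hf hL hLa (K * dd a f) (by positivity) h
  refine ⟨N₀, fun N hN => ?_⟩
  obtain ⟨q, h1, h2⟩ := hN₀ N hN
  refine ⟨q, ?_, h2⟩
  rw [hX_eq, ← mul_assoc]
  exact h1

lemma fails (a f : ℕ) (ha : 1 ≤ a) (hf : 1 ≤ f) (K : ℝ) (hK : 1 < K) (hW : Wins a f K) :
    ¬ Formula (fun N q => ForcerWinsSecond a f N Cls.parallelogram q)
        (hX a f Cls.parallelogram) ∧
      ¬ Formula (fun N q => ForcerWinsFirst a f N Cls.parallelogram q)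
        (hX a f Cls.parallelogram) := by
  have hd0 := dd_pos a f ha hf
  have hcd : dd a f < K * dd a f := by nlinarith
  have hg : ∀ N : ℕ, hX a f Cls.parallelogram N = dd a f * Real.sqrt (Real.logb 2 N) :=
    hX_eq a f
  obtain ⟨N₀, hN₀⟩ := hW
  have hN₁ : ∀ N : ℕ, N₀ ≤ N → ∃ q : ℕ, K * dd a f * Real.sqrt (Real.logb 2 N) ≤ q ∧
      ForcerWinsSecond a f N Cls.parallelogram q ∧ ForcerWinsFirst a f N Cls.parallelogram q := by
    intro N hN
    obtain ⟨q, h1, h2⟩ := hN₀ N hN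
    rw [hg, ← mul_assoc] at h1
    exact ⟨q, h1, h2⟩
  exact ⟨not_formula _ _ (K * dd a f) (dd a f) hcd (by positivity) hg
      ⟨N₀, fun N hN => by
        obtain ⟨q, h1, h2, -⟩ := hN₁ N hN
        exact ⟨q, h1, h2⟩⟩,
    not_formula _ _ (K * dd a f) (dd a f) hcd (by positivity) hg
      ⟨N₀, fun N hN => by
        obtain ⟨q, h1, -, h2⟩ := hN₁ N hN
        exact ⟨q, h1, h2⟩⟩⟩

/-- the main estimate -/
lemma key_bound (a f L : ℕ) (ha : 1 ≤ a) (hf : 1 ≤ f) (hL : L = (min a f + 1) / 2) :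
    dd a f ^ 2 * Real.logb 2 (BB a f L) ≤
      12 * (((a : ℝ) + f) / a) * (1 + Real.log (min a f : ℕ)) := by
  have hL1 : 1 ≤ L := by omega
  have hLa : L ≤ a := by omega
  have har : (1 : ℝ) ≤ a := by exact_mod_cast ha
  have hfr : (1 : ℝ) ≤ f := by exact_mod_cast hf
  have hLr : (1 : ℝ) ≤ L := by exact_mod_cast hL1
  have ha0 : (0 : ℝ) < a := by linarith
  obtain ⟨φ, hφ⟩ : ∃ φ : ℝ, φ = (f : ℝ) / a := ⟨_, rfl⟩
  have hφ0 : 0 < φ := hφ ▸ div_pos (by linarith) ha0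
  have e1 : ((a : ℝ) + f) / a = 1 + φ := by
    rw [hφ]
    field_simp
  have hLa2 : 2 * (L : ℝ) ≤ a + 1 := by
    have : 2 * L ≤ a + 1 := by omega
    exact_mod_cast this
  have hLf2 : 2 * (L : ℝ) ≤ f + 1 := by
    have : 2 * L ≤ f + 1 := by omega
    exact_mod_cast this
  have hLm : (L : ℝ) ≤ (min a f : ℕ) := by
    have : L ≤ min a f := by omega
    exact_mod_cast this
  have hθ : ((f : ℝ) + L - 1) / ((a : ℝ) - L + 1) ≤ 3 * φ := by
    rw [div_le_iff₀ (by linarith)]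
    have h1 : (a : ℝ) / 2 ≤ (a : ℝ) - L + 1 := by linarith
    have h2 : 3 * φ * ((a : ℝ) / 2) ≤ 3 * φ * ((a : ℝ) - L + 1) :=
      mul_le_mul_of_nonneg_left h1 (by positivity)
    have h3 : 3 * φ * ((a : ℝ) / 2) = 3 / 2 * f := by
      rw [hφ]
      field_simp
    linarith
  have hlogφ : 0 < Real.log (1 + φ) := Real.log_pos (by linarith)
  have hφlog : φ ≤ (1 + φ) * Real.log (1 + φ) := by
    have h1 := Real.one_sub_inv_le_log_of_pos (show 0 < 1 + φ by linarith)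
    have h2 : (1 + φ) * (1 - (1 + φ)⁻¹) = φ := by
      have : (1 + φ) ≠ 0 := by linarith
      field_simp
      ring
    calc φ = (1 + φ) * (1 - (1 + φ)⁻¹) := h2.symm
      _ ≤ (1 + φ) * Real.log (1 + φ) := mul_le_mul_of_nonneg_left h1 (by linarith)
  have hB := log_BB_le a f L hf hL1 hLa
  have hlogL : 0 ≤ Real.log L := Real.log_nonneg hLr
  have hlogm : Real.log L ≤ Real.log (min a f : ℕ) := Real.log_le_log (by linarith) hLm
  have hl2 : 0 < Real.log 2 := Real.log_pos (by norm_num)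
  rw [dd_sq a f ha hf, e1]
  have e2 : 4 / Real.logb 2 (1 + φ) * Real.logb 2 (BB a f L) =
      4 * (Real.log (BB a f L) / Real.log (1 + φ)) := by
    unfold Real.logb
    field_simp
  rw [e2]
  have h5 : Real.log (BB a f L) / Real.log (1 + φ) ≤ 3 * (1 + φ) * (1 + Real.log L) := by
    rw [div_le_iff₀ hlogφ]
    calc Real.log (BB a f L) ≤ 3 * φ * (1 + Real.log L) :=
          hB.trans (mul_le_mul_of_nonneg_right hθ (by linarith))
      _ ≤ 3 * ((1 + φ) * Real.log (1 + φ)) * (1 + Real.log L) :=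
          mul_le_mul_of_nonneg_right (by linarith) (by linarith)
      _ = _ := by ring
  calc 4 * (Real.log (BB a f L) / Real.log (1 + φ))
      ≤ 4 * (3 * (1 + φ) * (1 + Real.log L)) := mul_le_mul_of_nonneg_left h5 (by norm_num)
    _ = 12 * (1 + φ) * (1 + Real.log L) := by ring
    _ ≤ 12 * (1 + φ) * (1 + Real.log (min a f : ℕ)) :=
        mul_le_mul_of_nonneg_left (by linarith) (by linarith)

/-- The factor `(2 / 7) √(a m / ((a + f) (1 + log m)))`, where `m = min a f`. -/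
noncomputable def fac (a f : ℕ) : ℝ :=
  2 / 7 * Real.sqrt ((a : ℝ) * (min a f : ℕ) / (((a : ℝ) + f) * (1 + Real.log (min a f : ℕ))))

lemma min_facts (a f : ℕ) (ha : 1 ≤ a) (hf : 1 ≤ f) :
    (1 : ℝ) ≤ (min a f : ℕ) ∧ 0 ≤ Real.log (min a f : ℕ) := by
  have h : 1 ≤ min a f := le_min ha hf
  have h1 : (1 : ℝ) ≤ (min a f : ℕ) := by exact_mod_cast h
  exact ⟨h1, Real.log_nonneg h1⟩

lemma wins_fac (a f : ℕ) (ha : 1 ≤ a) (hf : 1 ≤ f) : Wins a f (fac a f) := by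
  obtain ⟨hm1, hlm⟩ := min_facts a f ha hf
  have har : (1 : ℝ) ≤ a := by exact_mod_cast ha
  have hfr : (1 : ℝ) ≤ f := by exact_mod_cast hf
  obtain ⟨L, hL⟩ : ∃ L : ℕ, L = (min a f + 1) / 2 := ⟨_, rfl⟩
  have hL1 : 1 ≤ L := by omega
  have hLa : L ≤ a := by omega
  have hmL : ((min a f : ℕ) : ℝ) ≤ 2 * L := by
    have : min a f ≤ 2 * L := by omega
    exact_mod_cast this
  have hR : 0 < (a : ℝ) * (min a f : ℕ) / (((a : ℝ) + f) * (1 + Real.log (min a f : ℕ))) := by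
    have h1 : 0 < (a : ℝ) * (min a f : ℕ) := mul_pos (by linarith) (by linarith)
    have h2 : 0 < ((a : ℝ) + f) * (1 + Real.log (min a f : ℕ)) :=
      mul_pos (by linarith) (by linarith)
    exact div_pos h1 h2
  have hfac : 0 < fac a f := mul_pos (by norm_num) (Real.sqrt_pos.2 hR)
  refine wins_of a f L hf hL1 hLa _ hfac ?_
  have h1 := key_bound a f L ha hf hL
  have h2 : fac a f ^ 2 = 4 / 49 *
      ((a : ℝ) * (min a f : ℕ) / (((a : ℝ) + f) * (1 + Real.log (min a f : ℕ)))) := by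
    unfold fac
    rw [mul_pow, Real.sq_sqrt hR.le]
    norm_num
  calc (fac a f * dd a f) ^ 2 * Real.logb 2 (BB a f L)
      = fac a f ^ 2 * (dd a f ^ 2 * Real.logb 2 (BB a f L)) := by ring
    _ ≤ fac a f ^ 2 * (12 * (((a : ℝ) + f) / a) * (1 + Real.log (min a f : ℕ))) :=
        mul_le_mul_of_nonneg_left h1 (sq_nonneg _)
    _ = 48 / 49 * (min a f : ℕ) := by
        rw [h2]
        have e1 : (a : ℝ) ≠ 0 := by linarith
        have e2 : (a : ℝ) + f ≠ 0 := by linarith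
        have e3 : 1 + Real.log (min a f : ℕ) ≠ 0 := by linarith
        generalize ((min a f : ℕ) : ℝ) = m at *
        field_simp
        norm_num
    _ < (min a f : ℕ) := by linarith
    _ ≤ 2 * L := hmL

lemma one_lt_fac (a f : ℕ) (ha : 1 ≤ a) (hf : 1 ≤ f)
    (h : 49 * ((a : ℝ) + f) * (1 + Real.log (min a f : ℕ)) < 4 * a * (min a f : ℕ)) :
    1 < fac a f := by
  obtain ⟨hm1, hlm⟩ := min_facts a f ha hf
  have har : (1 : ℝ) ≤ a := by exact_mod_cast ha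
  have hfr : (1 : ℝ) ≤ f := by exact_mod_cast hf
  have h1 : (7 / 2 : ℝ) < Real.sqrt
      ((a : ℝ) * (min a f : ℕ) / (((a : ℝ) + f) * (1 + Real.log (min a f : ℕ)))) := by
    rw [Real.lt_sqrt (by norm_num), lt_div_iff₀ (mul_pos (by linarith) (by linarith))]
    linarith
  unfold fac
  linarith

/-- a polynomial inequality -/
lemma poly1 {x : ℝ} (h0 : 0 < x) (h1 : x ≤ 1) :
    ∏ j ∈ range 14, (1 + 2 * x / ((j : ℝ) + 1)) < (1 + x) ^ 7 := by
  have e : (1 + x) ^ 7 - ∏ j ∈ range 14, (1 + 2 * x / ((j : ℝ) + 1)) =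
    (89527 / 180180 : ℝ) * x ^ 1 + (5171183 / 1719900 : ℝ) * x ^ 2 +
      (92119 / 14256 : ℝ) * x ^ 3 + (4255619 / 748440 : ℝ) * x ^ 4 + (217 / 1080 : ℝ) * x ^ 5 +
      (-304333 / 85050 : ℝ) * x ^ 6 + (-26645 / 9072 : ℝ) * x ^ 7 +
      (-515261 / 476280 : ℝ) * x ^ 8 + (-71 / 324 : ℝ) * x ^ 9 + (-2747 / 85050 : ℝ) * x ^ 10 +
      (-1 / 297 : ℝ) * x ^ 11 + (-2 / 8505 : ℝ) * x ^ 12 + (-4 / 405405 : ℝ) * x ^ 13 +
      (-8 / 42567525 : ℝ) * x ^ 14 := by
    simp only [Finset.prod_range_succ, Finset.prod_range_zero]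
    push_cast
    ring
  have h : ∀ i : ℕ, x ^ (i + 1) ≤ x ^ i := fun i => pow_le_pow_of_le_one h0.le h1 (Nat.le_succ i)
  have h2 := h 1
  have h3 := h 2
  have h4 := h 3
  have h5 := h 4
  have h6 := h 5
  have h7 := h 6
  have h8 := h 7
  have h9 := h 8
  have h10 := h 9
  have h11 := h 10
  have h12 := h 11
  have h13 := h 12
  have h14 := h 13
  have hp1 : 0 < x ^ 1 := pow_pos h0 1
  have hp5 : 0 < x ^ 5 := pow_pos h0 5
  norm_num only at h2 h3 h4 h5 h6 h7 h8 h9 h10 h11 h12 h13 h14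
  have : 0 < (1 + x) ^ 7 - ∏ j ∈ range 14, (1 + 2 * x / ((j : ℝ) + 1)) := by
    rw [e]
    linarith
  linarith

/-- a polynomial inequality -/
lemma poly2 {s : ℝ} (h0 : 0 ≤ s) (h1 : s ≤ 3) :
    ∏ j ∈ range 14, (1 + (2 + 3 / 2 * s) / ((j : ℝ) + 1)) < (2 + s) ^ 7 := by
  have e : (2 + s) ^ 7 - ∏ j ∈ range 14, (1 + (2 + 3 / 2 * s) / ((j : ℝ) + 1)) =
    (8 : ℝ) + (438313 / 4004 : ℝ) * s ^ 1 + (537291543 / 2242240 : ℝ) * s ^ 2 +
      (3513399 / 15400 : ℝ) * s ^ 3 + (857711879 / 7884800 : ℝ) * s ^ 4 +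
      (60514603 / 2867200 : ℝ) * s ^ 5 + (-34187299 / 11468800 : ℝ) * s ^ 6 +
      (-111326639 / 45875200 : ℝ) * s ^ 7 + (-333880893 / 642252800 : ℝ) * s ^ 8 +
      (-10836099 / 183500800 : ℝ) * s ^ 9 + (-1815939 / 367001600 : ℝ) * s ^ 10 +
      (-2396223 / 8074035200 : ℝ) * s ^ 11 + (-194643 / 16148070400 : ℝ) * s ^ 12 +
      (-124659 / 419849830400 : ℝ) * s ^ 13 + (-19683 / 5877897625600 : ℝ) * s ^ 14 := by
    simp only [Finset.prod_range_succ, Finset.prod_range_zero]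
    push_cast
    ring
  have h : ∀ i : ℕ, s ^ (i + 1) ≤ 3 * s ^ i := fun i => by
    rw [pow_succ, mul_comm]
    exact mul_le_mul_of_nonneg_right h1 (pow_nonneg h0 i)
  have h5 := h 4
  have h6 := h 5
  have h7 := h 6
  have h8 := h 7
  have h9 := h 8
  have h10 := h 9
  have h11 := h 10
  have h12 := h 11
  have h13 := h 12
  have h14 := h 13
  have hp1 : 0 ≤ s ^ 1 := pow_nonneg h0 1
  have hp2 : 0 ≤ s ^ 2 := pow_nonneg h0 2
  have hp3 : 0 ≤ s ^ 3 := pow_nonneg h0 3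
  have hp4 : 0 ≤ s ^ 4 := pow_nonneg h0 4
  have hp5 : 0 ≤ s ^ 5 := pow_nonneg h0 5
  norm_num only at h5 h6 h7 h8 h9 h10 h11 h12 h13 h14
  have : 0 < (2 + s) ^ 7 - ∏ j ∈ range 14, (1 + (2 + 3 / 2 * s) / ((j : ℝ) + 1)) := by
    rw [e]
    linarith
  linarith

lemma BB_lt (a f : ℕ) (ha : 39 ≤ a) (hf : 39 ≤ f) (hfa : f ≤ 4 * a) :
    BB a f 14 < (((a : ℝ) + f) / a) ^ 7 := by
  have har : (39 : ℝ) ≤ a := by exact_mod_cast ha
  have hfr : (39 : ℝ) ≤ f := by exact_mod_cast hf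
  have ha0 : (0 : ℝ) < a := by linarith
  obtain ⟨φ, hφ⟩ : ∃ φ : ℝ, φ = (f : ℝ) / a := ⟨_, rfl⟩
  have hφ0 : 0 < φ := hφ ▸ div_pos (by linarith) ha0
  have hφa : φ * a = f := by
    rw [hφ]
    field_simp
  have e1 : ((a : ℝ) + f) / a = 1 + φ := by
    rw [hφ]
    field_simp
  have hden : (0 : ℝ) < (a : ℝ) - (14 : ℕ) + 1 := by
    push_cast
    linarith
  have hmono : ∀ θ' : ℝ, ((f : ℝ) + (14 : ℕ) - 1) / ((a : ℝ) - (14 : ℕ) + 1) ≤ θ' →
      BB a f 14 ≤ ∏ j ∈ range 14, (1 + θ' / ((j : ℝ) + 1)) := by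
    intro θ' h
    have hθ0 : 0 ≤ ((f : ℝ) + (14 : ℕ) - 1) / ((a : ℝ) - (14 : ℕ) + 1) := by
      apply div_nonneg _ hden.le
      push_cast
      linarith
    unfold BB
    refine Finset.prod_le_prod (fun j _ => ?_) (fun j _ => ?_)
    · have h2 : 0 ≤ ((f : ℝ) + (14 : ℕ) - 1) / ((a : ℝ) - (14 : ℕ) + 1) / ((j : ℝ) + 1) :=
        div_nonneg hθ0 (by positivity)
      linarith
    · have h2 : ((f : ℝ) + (14 : ℕ) - 1) / ((a : ℝ) - (14 : ℕ) + 1) / ((j : ℝ) + 1) ≤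
          θ' / ((j : ℝ) + 1) := div_le_div_of_nonneg_right h (by positivity)
      linarith
  rw [e1]
  rcases le_total φ 1 with h1 | h1
  · refine (hmono (2 * φ) ?_).trans_lt (poly1 hφ0 h1)
    rw [div_le_iff₀ hden]
    push_cast
    have h3 : (0 : ℝ) ≤ ((a : ℝ) - 39) * (f - 39) := mul_nonneg (by linarith) (by linarith)
    have h4 : (a : ℝ) * ((f : ℝ) + 14 - 1) ≤ a * (2 * φ * ((a : ℝ) - 14 + 1)) := by
      have e5 : (a : ℝ) * (2 * φ * ((a : ℝ) - 14 + 1)) = 2 * f * ((a : ℝ) - 14 + 1) := by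
        rw [← hφa]
        ring
      rw [e5]
      nlinarith
    exact le_of_mul_le_mul_left h4 ha0
  · have h2 : φ - 1 ≤ 3 := by
      have h3 : (f : ℝ) ≤ 4 * a := by exact_mod_cast hfa
      have h4 : φ ≤ 4 := by
        rw [hφ, div_le_iff₀ ha0]
        exact h3
      linarith
    have h5 := poly2 (s := φ - 1) (by linarith) h2
    have e6 : (2 + (φ - 1)) = 1 + φ := by ring
    rw [e6] at h5
    refine (hmono _ ?_).trans_lt h5
    rw [div_le_iff₀ hden]
    push_cast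
    have h7 : (0 : ℝ) ≤ ((a : ℝ) - 39) * (f + a) := mul_nonneg (by linarith) (by linarith)
    have h8 : (a : ℝ) * ((f : ℝ) + 14 - 1) ≤
        a * ((2 + 3 / 2 * (φ - 1)) * ((a : ℝ) - 14 + 1)) := by
      have e9 : (a : ℝ) * ((2 + 3 / 2 * (φ - 1)) * ((a : ℝ) - 14 + 1)) =
          (1 / 2 * a + 3 / 2 * f) * ((a : ℝ) - 14 + 1) := by
        rw [← hφa]
        ring
      rw [e9]
      nlinarith
    exact le_of_mul_le_mul_left h8 ha0

lemma exists_gt {d x y : ℝ} (h : d ^ 2 * x < y) : ∃ K : ℝ, 1 < K ∧ (K * d) ^ 2 * x < y := by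
  have h1 : Continuous fun K : ℝ => (K * d) ^ 2 * x := by fun_prop
  have h2 : ∀ᶠ K : ℝ in nhds 1, (K * d) ^ 2 * x < y := by
    refine h1.continuousAt.eventually_lt_const ?_
    show (1 * d) ^ 2 * x < y
    rw [one_mul]
    exact h
  have h3 : ∀ᶠ K : ℝ in nhdsWithin 1 (Set.Ioi 1), (K * d) ^ 2 * x < y :=
    h2.filter_mono nhdsWithin_le_nhds
  obtain ⟨K, hK, hK1⟩ := (h3.and self_mem_nhdsWithin).exists
  exact ⟨K, hK1, hK⟩

lemma wins_region (a f : ℕ) (ha : 39 ≤ a) (hf : 39 ≤ f) (hfa : f ≤ 4 * a) :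
    ∃ K : ℝ, 1 < K ∧ Wins a f K := by
  have ha1 : 1 ≤ a := by omega
  have hf1 : 1 ≤ f := by omega
  have hlb := logb_ratio_pos a f ha1 hf1
  have h1 : dd a f ^ 2 * Real.logb 2 (BB a f 14) < 2 * (14 : ℕ) := by
    have hBpos : 0 < BB a f 14 := by
      have har : (39 : ℝ) ≤ a := by exact_mod_cast ha
      have hfr : (39 : ℝ) ≤ f := by exact_mod_cast hf
      unfold BB
      refine Finset.prod_pos fun j _ => ?_
      have h2 : 0 ≤ ((f : ℝ) + (14 : ℕ) - 1) / ((a : ℝ) - (14 : ℕ) + 1) / ((j : ℝ) + 1) := by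
        apply div_nonneg (div_nonneg _ _) (by positivity)
        · push_cast; linarith
        · push_cast; linarith
      linarith
    have h3 : Real.logb 2 (BB a f 14) < 7 * Real.logb 2 (((a : ℝ) + f) / a) := by
      have h4 := Real.logb_lt_logb (b := 2) (by norm_num) hBpos (BB_lt a f ha hf hfa)
      rw [Real.logb_pow] at h4
      exact_mod_cast h4
    rw [dd_sq a f ha1 hf1, div_mul_eq_mul_div, div_lt_iff₀ hlb]
    push_cast
    linarith
  obtain ⟨K, hK, h2⟩ := exists_gt h1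
  exact ⟨K, hK, wins_of a f 14 hf1 (by norm_num) (by omega) K (by linarith) h2⟩

/-- (1) For all biases `a`, `f`: for all large `N` Forcer wins the `(a:f)` avoidance game for
parallelogram lattices with some `q ≥ fac a f * h_X(N)`, whoever moves first.  The factor `fac a f` tends
to infinity when `f → ∞` and `f (1 + log a) / a ^ 2 → 0`; for `a = f = k` it is
`(2 / 7) √(k / (2 (1 + log k)))`.
(2) For all `a ≥ 39` and all `39 ≤ f ≤ 4 a`, and whenever `fac a f > 1`, Forcer wins for all large `N` with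
some `q ≥ K h_X(N)`, for some `K > 1`, and the formula of Q2 fails for the bias `(a:f)`, for both
choices of the first player.
(3) In the other direction, for all biases, all classes and all `c > 0` with `6 < c ^ 2 log (1 + 1 / a)`:
for all large `N` and all `q ≥ c √(log N)` Avoider can avoid all `q × q` lattices, and Forcer does not win,
whoever moves first.  For `a = f = k` the bounds (1) and (3) are within a factor `O(√(1 + log k))` of each
other.
(4) In particular the statement of Q2 is false, for both choices of the first player. -/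
theorem result :
    (∀ a f : ℕ, 1 ≤ a → 1 ≤ f →
      ∃ N₀ : ℕ, ∀ N : ℕ, N₀ ≤ N → ∃ q : ℕ, fac a f * hX a f Cls.parallelogram N ≤ q ∧
        ForcerWinsSecond a f N Cls.parallelogram q ∧
        ForcerWinsFirst a f N Cls.parallelogram q) ∧
    (∀ a f : ℕ, (39 ≤ a ∧ 39 ≤ f ∧ f ≤ 4 * a) ∨ (1 ≤ a ∧ 1 ≤ f ∧
        49 * ((a : ℝ) + f) * (1 + Real.log (min a f : ℕ)) < 4 * a * (min a f : ℕ)) →
      (∃ K : ℝ, 1 < K ∧ ∃ N₀ : ℕ, ∀ N : ℕ, N₀ ≤ N → ∃ q : ℕ,
        K * hX a f Cls.parallelogram N ≤ q ∧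
        ForcerWinsSecond a f N Cls.parallelogram q ∧
        ForcerWinsFirst a f N Cls.parallelogram q) ∧
      ¬ Formula (fun N q => ForcerWinsSecond a f N Cls.parallelogram q)
        (hX a f Cls.parallelogram) ∧
      ¬ Formula (fun N q => ForcerWinsFirst a f N Cls.parallelogram q)
        (hX a f Cls.parallelogram)) ∧
    (∀ a f : ℕ, 1 ≤ a → 1 ≤ f → ∀ c : ℝ, 0 < c → 6 < c ^ 2 * Real.log (1 + 1 / (a : ℝ)) →
      ∃ N₀ : ℕ, ∀ N : ℕ, N₀ ≤ N → ∀ (X : Cls) (q : ℕ), c * Real.sqrt (Real.log N) ≤ q →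
        (Pool.Agent.Y929.MB.CanPrevent a f N 0 0 X q ∧ ¬ ForcerWinsSecond a f N X q) ∧
        Pool.Agent.Y929.MB.CanPrevent f a N 1 1 X q ∧ ¬ ForcerWinsFirst a f N X q) ∧
    ¬ (∀ (a f : ℕ) (X : Cls), 1 ≤ a → 1 ≤ f →
      Formula (fun N q => ForcerWinsSecond a f N X q) (hX a f X)) ∧
    ¬ (∀ (a f : ℕ) (X : Cls), 1 ≤ a → 1 ≤ f →
      Formula (fun N q => ForcerWinsFirst a f N X q) (hX a f X)) := by
  have key : ∀ a f : ℕ, (39 ≤ a ∧ 39 ≤ f ∧ f ≤ 4 * a) ∨ (1 ≤ a ∧ 1 ≤ f ∧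
        49 * ((a : ℝ) + f) * (1 + Real.log (min a f : ℕ)) < 4 * a * (min a f : ℕ)) →
      (∃ K : ℝ, 1 < K ∧ Wins a f K) ∧
      ¬ Formula (fun N q => ForcerWinsSecond a f N Cls.parallelogram q)
        (hX a f Cls.parallelogram) ∧
      ¬ Formula (fun N q => ForcerWinsFirst a f N Cls.parallelogram q)
        (hX a f Cls.parallelogram) := by
    intro a f h
    have h1 : 1 ≤ a ∧ 1 ≤ f ∧ ∃ K : ℝ, 1 < K ∧ Wins a f K := by
      rcases h with ⟨ha, hf, hfa⟩ | ⟨ha, hf, h⟩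
      · exact ⟨by omega, by omega, wins_region a f ha hf hfa⟩
      · exact ⟨ha, hf, fac a f, one_lt_fac a f ha hf h, wins_fac a f ha hf⟩
    obtain ⟨ha, hf, K, hK, hW⟩ := h1
    exact ⟨⟨K, hK, hW⟩, fails a f ha hf K hK hW⟩
  have h0 := key 39 39 (Or.inl ⟨le_rfl, le_rfl, by norm_num⟩)
  exact ⟨fun a f ha hf => wins_fac a f ha hf, key,
    fun a f ha hf c hc h => Pool.Agent.Y929.MB.avoider_upper a f c ha hf hc h,
    fun hcon => h0.2.1 (hcon 39 39 Cls.parallelogram (by norm_num) (by norm_num)),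
    fun hcon => h0.2.2 (hcon 39 39 Cls.parallelogram (by norm_num) (by norm_num))⟩

end Pool.Agent.Results.MP_58ead2_co.AvoidanceUnboundedFactor
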